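import Pool.Agent.helper91.Kus3.F1b

/-!
# F7a: the parametrisation of a film sphere in the three-sphere
-/

open Set Metric MeasureTheory
open scoped ContDiff Topology

namespace Kusner.P

/-! ### frames -/

theorem frame_orthonormal {a b p : E3} (h : Frame a b p) : Orthonormal ℝ ![a, b, p] := by
  rw [orthonormal_iff_ite]
  intro i j
  have h1 : inner ℝ a a = (1 : ℝ) := by rw [real_inner_self_eq_norm_sq, h.na]; norm_num
  have h2 : inner ℝ b b = (1 : ℝ) := by rw [real_inner_self_eq_norm_sq, h.nb]; norm_num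
  have h3 : inner ℝ p p = (1 : ℝ) := by rw [real_inner_self_eq_norm_sq, h.np]; norm_num
  have h4 := h.ab
  have h5 := h.ap
  have h6 := h.bp
  have h4' : inner ℝ b a = (0 : ℝ) := by rw [real_inner_comm]; exact h4
  have h5' : inner ℝ p a = (0 : ℝ) := by rw [real_inner_comm]; exact h5
  have h6' : inner ℝ p b = (0 : ℝ) := by rw [real_inner_comm]; exact h6
  fin_cases i <;> fin_cases j <;>
    simp only [Fin.zero_eta, Fin.mk_one, Fin.reduceFinMk, Matrix.cons_val, Matrix.cons_val_zero,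
      Matrix.cons_val_one] <;>
    simp only [h1, h2, h3, h4, h5, h6, h4', h5', h6'] <;> simp

/-- The orthonormal basis of a frame. -/
theorem frame_basis {a b p : E3} (h : Frame a b p) :
    ∃ B : OrthonormalBasis (Fin 3) ℝ E3, B 0 = a ∧ B 1 = b ∧ B 2 = p := by
  have hc : Module.finrank ℝ E3 = Fintype.card (Fin 3) := by simp
  have hon := frame_orthonormal h
  have hsp : ⊤ ≤ Submodule.span ℝ (Set.range ![a, b, p]) :=
    (hon.linearIndependent.span_eq_top_of_card_eq_finrank' hc.symm).ge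
  refine ⟨OrthonormalBasis.mk hon hsp, ?_, ?_, ?_⟩ <;> simp [OrthonormalBasis.coe_mk]

theorem frame_inner {a b p : E3} (h : Frame a b p) (v w : E3) :
    (inner ℝ v w : ℝ) = inner ℝ a v * inner ℝ a w + inner ℝ b v * inner ℝ b w +
      inner ℝ p v * inner ℝ p w := by
  obtain ⟨B, h0, h1, h2⟩ := frame_basis h
  have := B.sum_inner_mul_inner v w
  rw [← this, Fin.sum_univ_three, h0, h1, h2, real_inner_comm v a, real_inner_comm v b,
    real_inner_comm v p]

theorem frame_repr {a b p : E3} (h : Frame a b p) (v : E3) :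
    v = (inner ℝ a v : ℝ) • a + (inner ℝ b v : ℝ) • b + (inner ℝ p v : ℝ) • p := by
  obtain ⟨B, h0, h1, h2⟩ := frame_basis h
  have := B.sum_repr' v
  rw [Fin.sum_univ_three, h0, h1, h2] at this
  exact this.symm

/-- Every unit vector is the last vector of a frame. -/
theorem exists_frame {p : E3} (hp : ‖p‖ = 1) : ∃ a b : E3, Frame a b p := by
  have hc : Module.finrank ℝ E3 = Fintype.card (Fin 3) := by simp
  have hon : Orthonormal ℝ (fun i : ({2} : Set (Fin 3)) => (fun _ : Fin 3 => p) i) := by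
    rw [orthonormal_iff_ite]
    rintro ⟨i, hi⟩ ⟨j, hj⟩
    simp only [Set.mem_singleton_iff] at hi hj
    subst hi; subst hj
    simp [hp]
  obtain ⟨B, hB⟩ := hon.exists_orthonormalBasis_extension_of_card_eq (v := fun _ => p) hc
  have hB2 : B 2 = p := hB 2 rfl
  refine ⟨B 0, B 1, ?_⟩
  have h := B.orthonormal
  refine ⟨h.1 0, h.1 1, hp, h.2 (by decide), ?_, ?_⟩
  · rw [← hB2]; exact h.2 (by decide)
  · rw [← hB2]; exact h.2 (by decide)

/-! ### four-space -/

theorem inner_vec (Y Z : E4) : (inner ℝ Y Z : ℝ) = Y 0 * Z 0 + inner ℝ (vec Y) (vec Z) := by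
  simp only [PiLp.inner_apply, Fin.sum_univ_four, Fin.sum_univ_three, vec]
  simp
  ring

/-- The embedding of three-space in four-space. -/
noncomputable def emb (v : E3) : E4 := !₂[0, v 0, v 1, v 2]

/-- The unit vector of the coordinate `0`. -/
noncomputable def e0 : E4 := !₂[1, 0, 0, 0]

@[simp] theorem emb_zero (v : E3) : emb v 0 = 0 := by simp [emb]

@[simp] theorem vec_emb (v : E3) : vec (emb v) = v := by
  ext i; fin_cases i <;> simp [emb, vec]

@[simp] theorem e0_zero : e0 0 = 1 := by simp [e0]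

@[simp] theorem vec_e0 : vec e0 = 0 := by
  ext i; fin_cases i <;> simp [e0, vec]

theorem vec_add (Y Z : E4) : vec (Y + Z) = vec Y + vec Z := by
  ext i; fin_cases i <;> simp [vec]

theorem vec_smul (c : ℝ) (Y : E4) : vec (c • Y) = c • vec Y := by
  ext i; fin_cases i <;> simp [vec]

theorem vec_ext {Y Z : E4} (h0 : Y 0 = Z 0) (h : vec Y = vec Z) : Y = Z := by
  have h1 : vec Y 0 = vec Z 0 := by rw [h]
  have h2 : vec Y 1 = vec Z 1 := by rw [h]
  have h3 : vec Y 2 = vec Z 2 := by rw [h]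
  simp only [vec] at h1 h2 h3
  ext i; fin_cases i
  · exact h0
  · simpa using h1
  · simpa using h2
  · simpa using h3

theorem norm_sq_vec (Y : E4) : ‖Y‖ ^ 2 = Y 0 ^ 2 + ‖vec Y‖ ^ 2 := by
  rw [← real_inner_self_eq_norm_sq, ← real_inner_self_eq_norm_sq, inner_vec]; ring

theorem continuous_vec : Continuous vec := by
  unfold vec
  fun_prop

/-! ### the parametrisation -/

/-- The component along `wv` of the points of the film at height `e`. -/
noncomputable def fc (w0 wt W e : ℝ) : ℝ := (wt - w0 * e) / W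

/-- The squared radius of the circle at height `e`. -/
noncomputable def fq (w0 wt W e : ℝ) : ℝ := 1 - e ^ 2 - fc w0 wt W e ^ 2

/-- The parametrisation of the film. -/
noncomputable def filmY (w0 wt W : ℝ) (a b u : E3) (x : ℝ × ℝ) : E4 :=
  x.1 • e0 + fc w0 wt W x.1 • emb u +
    Real.sqrt (fq w0 wt W x.1) • (Real.cos x.2 • emb a + Real.sin x.2 • emb b)

/-- Its domain. -/
def filmU (w0 wt W : ℝ) : Set (ℝ × ℝ) := {x | 0 < fq w0 wt W x.1}

/-- Its fundamental domain. -/
def filmD (w0 wt W : ℝ) : Set (ℝ × ℝ) := {x | 0 < fq w0 wt W x.1 ∧ x.2 ∈ Ioc (-Real.pi) Real.pi}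

theorem continuous_fc (w0 wt W : ℝ) : Continuous (fc w0 wt W) := by
  unfold fc; fun_prop

theorem continuous_fq (w0 wt W : ℝ) : Continuous (fq w0 wt W) := by
  unfold fq fc; fun_prop

theorem continuous_filmY (w0 wt W : ℝ) (a b u : E3) : Continuous (filmY w0 wt W a b u) := by
  unfold filmY fq fc; fun_prop

theorem isOpen_filmU (w0 wt W : ℝ) : IsOpen (filmU w0 wt W) :=
  isOpen_lt continuous_const ((continuous_fq w0 wt W).comp continuous_fst)

theorem measurableSet_filmD (w0 wt W : ℝ) : MeasurableSet (filmD w0 wt W) :=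
  (isOpen_filmU w0 wt W).measurableSet.inter (measurable_snd measurableSet_Ioc)

theorem contDiffOn_filmY (w0 wt W : ℝ) (a b u : E3) :
    ContDiffOn ℝ 1 (filmY w0 wt W a b u) (filmU w0 wt W) := by
  have h1 : ContDiff ℝ 1 (fun x : ℝ × ℝ => fq w0 wt W x.1) := by
    unfold fq fc; fun_prop
  have h2 : ContDiffOn ℝ 1 (fun x : ℝ × ℝ => Real.sqrt (fq w0 wt W x.1)) (filmU w0 wt W) :=
    h1.contDiffOn.sqrt fun x hx => (show 0 < fq w0 wt W x.1 from hx).ne'
  have h3 : ContDiff ℝ 1 (fun x : ℝ × ℝ => x.1 • e0 + fc w0 wt W x.1 • emb u) := by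
    unfold fc; fun_prop
  have h4 : ContDiff ℝ 1 (fun x : ℝ × ℝ => Real.cos x.2 • emb a + Real.sin x.2 • emb b) := by
    fun_prop
  exact h3.contDiffOn.add (h2.smul h4.contDiffOn)

theorem filmY_zero (w0 wt W : ℝ) (a b u : E3) (x : ℝ × ℝ) : filmY w0 wt W a b u x 0 = x.1 := by
  simp [filmY]

theorem vec_filmY (w0 wt W : ℝ) (a b u : E3) (x : ℝ × ℝ) : vec (filmY w0 wt W a b u x) =
    fc w0 wt W x.1 • u + Real.sqrt (fq w0 wt W x.1) • (Real.cos x.2 • a + Real.sin x.2 • b) := by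
  simp [filmY, vec_add, vec_smul]

theorem hasDerivAt_fc (w0 wt W e : ℝ) : HasDerivAt (fc w0 wt W) (-w0 / W) e := by
  unfold fc
  have h := (((hasDerivAt_id e).const_mul w0).const_sub wt).div_const W
  simpa using h

theorem hasDerivAt_fq (w0 wt W e : ℝ) :
    HasDerivAt (fq w0 wt W) (-(2 * e) - 2 * fc w0 wt W e * (-w0 / W)) e := by
  have h1 := (hasDerivAt_pow 2 e).const_sub 1
  have h2 := (hasDerivAt_fc w0 wt W e).pow 2
  have h := h1.sub h2
  refine (h.congr_of_eventuallyEq ?_).congr_deriv ?_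
  · exact Filter.Eventually.of_forall fun x => rfl
  · simp

/-- The two partial derivatives of the parametrisation. -/
theorem fderiv_filmY_one {w0 wt W : ℝ} {a b u : E3} {x : ℝ × ℝ} (hx : x ∈ filmU w0 wt W) :
    fderiv ℝ (filmY w0 wt W a b u) x (1, 0) = e0 + (-w0 / W) • emb u +
      ((-(2 * x.1) - 2 * fc w0 wt W x.1 * (-w0 / W)) / (2 * Real.sqrt (fq w0 wt W x.1))) •
        (Real.cos x.2 • emb a + Real.sin x.2 • emb b) := by
  have hd : DifferentiableAt ℝ (filmY w0 wt W a b u) x :=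
    ((contDiffOn_filmY w0 wt W a b u).contDiffAt ((isOpen_filmU w0 wt W).mem_nhds hx)).differentiableAt
      one_ne_zero
  have hc : HasDerivAt (fun e : ℝ => (e, x.2)) ((1 : ℝ), (0 : ℝ)) x.1 :=
    (hasDerivAt_id x.1).prodMk (hasDerivAt_const _ _)
  have h1 := hd.hasFDerivAt.comp_hasDerivAt_of_eq x.1 hc rfl
  have h2 : HasDerivAt (fun e : ℝ => filmY w0 wt W a b u (e, x.2)) (e0 + (-w0 / W) • emb u +
      ((-(2 * x.1) - 2 * fc w0 wt W x.1 * (-w0 / W)) / (2 * Real.sqrt (fq w0 wt W x.1))) •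
        (Real.cos x.2 • emb a + Real.sin x.2 • emb b)) x.1 := by
    have h3 : HasDerivAt (fun e : ℝ => e • e0) e0 x.1 := by
      simpa using (hasDerivAt_id x.1).smul_const e0
    have h4 := (hasDerivAt_fc w0 wt W x.1).smul_const (emb u)
    have h5 := ((hasDerivAt_fq w0 wt W x.1).sqrt (ne_of_gt hx)).smul_const
      (Real.cos x.2 • emb a + Real.sin x.2 • emb b)
    exact (h3.add h4).add h5
  exact h1.unique h2

theorem fderiv_filmY_two {w0 wt W : ℝ} {a b u : E3} {x : ℝ × ℝ} (hx : x ∈ filmU w0 wt W) :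
    fderiv ℝ (filmY w0 wt W a b u) x (0, 1) =
      Real.sqrt (fq w0 wt W x.1) • (-Real.sin x.2 • emb a + Real.cos x.2 • emb b) := by
  have hd : DifferentiableAt ℝ (filmY w0 wt W a b u) x :=
    ((contDiffOn_filmY w0 wt W a b u).contDiffAt ((isOpen_filmU w0 wt W).mem_nhds hx)).differentiableAt
      one_ne_zero
  have hc : HasDerivAt (fun t : ℝ => (x.1, t)) ((0 : ℝ), (1 : ℝ)) x.2 :=
    (hasDerivAt_const _ _).prodMk (hasDerivAt_id x.2)
  have h1 := hd.hasFDerivAt.comp_hasDerivAt_of_eq x.2 hc rfl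
  have h2 : HasDerivAt (fun t : ℝ => filmY w0 wt W a b u (x.1, t))
      (Real.sqrt (fq w0 wt W x.1) • (-Real.sin x.2 • emb a + Real.cos x.2 • emb b)) x.2 := by
    have h3 := ((Real.hasDerivAt_cos x.2).smul_const (emb a)).add
      ((Real.hasDerivAt_sin x.2).smul_const (emb b))
    have h4 := h3.const_smul (Real.sqrt (fq w0 wt W x.1))
    have h5 := h4.const_add (x.1 • e0 + fc w0 wt W x.1 • emb u)
    exact h5
  exact h1.unique h2

theorem inner_emb (v w : E3) : (inner ℝ (emb v) (emb w) : ℝ) = inner ℝ v w := by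
  rw [inner_vec]; simp

theorem inner_e0_emb (v : E3) : (inner ℝ e0 (emb v) : ℝ) = 0 := by
  rw [inner_vec]; simp

theorem inner_emb_e0 (v : E3) : (inner ℝ (emb v) e0 : ℝ) = 0 := by
  rw [inner_vec]; simp

theorem inner_e0_e0 : (inner ℝ e0 e0 : ℝ) = 1 := by
  rw [inner_vec]; simp

theorem jac_filmY {w0 wt W : ℝ} (hW : 0 < W) (hw : w0 ^ 2 + W ^ 2 - wt ^ 2 = 1) {a b u : E3}
    (hF : Frame a b u) {x : ℝ × ℝ} (hx : x ∈ filmU w0 wt W) :
    jac (fderiv ℝ (filmY w0 wt W a b u) x (1, 0)) (fderiv ℝ (filmY w0 wt W a b u) x (0, 1)) =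
      1 / W := by
  have hq : 0 < fq w0 wt W x.1 := hx
  rw [fderiv_filmY_one hx, fderiv_filmY_two hx]
  have haa : (inner ℝ a a : ℝ) = 1 := by rw [real_inner_self_eq_norm_sq, hF.na]; norm_num
  have hbb : (inner ℝ b b : ℝ) = 1 := by rw [real_inner_self_eq_norm_sq, hF.nb]; norm_num
  have huu : (inner ℝ u u : ℝ) = 1 := by rw [real_inner_self_eq_norm_sq, hF.np]; norm_num
  have hba : (inner ℝ b a : ℝ) = 0 := by rw [real_inner_comm]; exact hF.ab
  have hua : (inner ℝ u a : ℝ) = 0 := by rw [real_inner_comm]; exact hF.ap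
  have hub : (inner ℝ u b : ℝ) = 0 := by rw [real_inner_comm]; exact hF.bp
  have hcs := Real.sin_sq_add_cos_sq x.2
  set r := Real.sqrt (fq w0 wt W x.1) with hr
  have hr2 : r ^ 2 = fq w0 wt W x.1 := Real.sq_sqrt hq.le
  have hr0 : 0 < r := Real.sqrt_pos.mpr hq
  set k := (-(2 * x.1) - 2 * fc w0 wt W x.1 * (-w0 / W)) / (2 * r) with hk
  unfold jac
  rw [← real_inner_self_eq_norm_sq, ← real_inner_self_eq_norm_sq]
  simp only [inner_add_left, inner_add_right, real_inner_smul_left, real_inner_smul_right,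
    inner_emb, inner_e0_emb, inner_emb_e0, inner_e0_e0, haa, hbb, huu, hba, hua, hub, hF.ab, hF.ap,
    hF.bp, neg_smul, inner_neg_left, inner_neg_right]
  have key : k * r = -(x.1) - fc w0 wt W x.1 * (-w0 / W) := by
    rw [hk]; field_simp
  have e1 : (1 + (-w0 / W) ^ 2 + k ^ 2) * r ^ 2 = (1 / W) ^ 2 := by
    have : (1 + (-w0 / W) ^ 2 + k ^ 2) * r ^ 2 =
        (1 + (-w0 / W) ^ 2) * r ^ 2 + (k * r) ^ 2 := by ring
    rw [this, key, hr2]
    unfold fq fc
    field_simp
    linear_combination W ^ 2 * hw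
  rw [show (1 / W : ℝ) = Real.sqrt ((1 / W) ^ 2) from (Real.sqrt_sq (by positivity)).symm, ← e1]
  congr 1
  set c := Real.cos x.2
  set s := Real.sin x.2
  have hs : s ^ 2 = 1 - c ^ 2 := by linear_combination hcs
  ring_nf
  simp only [show s ^ 4 = (s ^ 2) ^ 2 by ring, hs]
  ring

/-! ### injectivity and image -/

theorem norm_filmY {w0 wt W : ℝ} {a b u : E3} (hF : Frame a b u) {x : ℝ × ℝ}
    (hx : 0 ≤ fq w0 wt W x.1) : ‖filmY w0 wt W a b u x‖ = 1 := by
  have hba : (inner ℝ b a : ℝ) = 0 := by rw [real_inner_comm]; exact hF.ab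
  have haa : (inner ℝ a a : ℝ) = 1 := by rw [real_inner_self_eq_norm_sq, hF.na]; norm_num
  have hbb : (inner ℝ b b : ℝ) = 1 := by rw [real_inner_self_eq_norm_sq, hF.nb]; norm_num
  have huu : (inner ℝ u u : ℝ) = 1 := by rw [real_inner_self_eq_norm_sq, hF.np]; norm_num
  have hua : (inner ℝ u a : ℝ) = 0 := by rw [real_inner_comm]; exact hF.ap
  have hub : (inner ℝ u b : ℝ) = 0 := by rw [real_inner_comm]; exact hF.bp
  have h : ‖filmY w0 wt W a b u x‖ ^ 2 = 1 := by
    rw [norm_sq_vec, filmY_zero, vec_filmY, ← real_inner_self_eq_norm_sq]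
    simp only [inner_add_left, inner_add_right, real_inner_smul_left, real_inner_smul_right,
      haa, hbb, huu, hba, hua, hub, hF.ab, hF.ap, hF.bp]
    have hr : Real.sqrt (fq w0 wt W x.1) ^ 2 = fq w0 wt W x.1 := Real.sq_sqrt hx
    have hcs := Real.sin_sq_add_cos_sq x.2
    have h1 : fq w0 wt W x.1 = 1 - x.1 ^ 2 - fc w0 wt W x.1 ^ 2 := rfl
    linear_combination (Real.sin x.2 ^ 2 + Real.cos x.2 ^ 2) * hr +
      fq w0 wt W x.1 * hcs + h1
  have h0 := norm_nonneg (filmY w0 wt W a b u x)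
  nlinarith [h, h0]

theorem film_eq {w0 wt W : ℝ} (hW : W ≠ 0) {a b u : E3} (hF : Frame a b u) (x : ℝ × ℝ) :
    w0 * filmY w0 wt W a b u x 0 + inner ℝ (W • u) (vec (filmY w0 wt W a b u x)) = wt := by
  have huu : (inner ℝ u u : ℝ) = 1 := by rw [real_inner_self_eq_norm_sq, hF.np]; norm_num
  have hua : (inner ℝ u a : ℝ) = 0 := by rw [real_inner_comm]; exact hF.ap
  have hub : (inner ℝ u b : ℝ) = 0 := by rw [real_inner_comm]; exact hF.bp
  rw [filmY_zero, vec_filmY]
  simp only [inner_add_right, real_inner_smul_left, real_inner_smul_right, huu, hua, hub, fc]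
  field_simp
  ring

theorem injOn_filmY {w0 wt W : ℝ} {a b u : E3} (hF : Frame a b u) :
    InjOn (filmY w0 wt W a b u) (filmD w0 wt W) := by
  intro x hx y hy hxy
  have haa : (inner ℝ a a : ℝ) = 1 := by rw [real_inner_self_eq_norm_sq, hF.na]; norm_num
  have hbb : (inner ℝ b b : ℝ) = 1 := by rw [real_inner_self_eq_norm_sq, hF.nb]; norm_num
  have hba : (inner ℝ b a : ℝ) = 0 := by rw [real_inner_comm]; exact hF.ab
  have h1 : x.1 = y.1 := by
    have := congrArg (fun Z : E4 => Z 0) hxy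
    simpa [filmY_zero] using this
  have hr0 : 0 < Real.sqrt (fq w0 wt W x.1) := Real.sqrt_pos.mpr hx.1
  have h2 : vec (filmY w0 wt W a b u x) = vec (filmY w0 wt W a b u y) := by rw [hxy]
  rw [vec_filmY, vec_filmY, ← h1] at h2
  have hc : Real.cos x.2 = Real.cos y.2 := by
    have := congrArg (fun v : E3 => (inner ℝ a v : ℝ)) h2
    simp only [inner_add_right, real_inner_smul_right, haa, hF.ab, hF.ap, mul_zero, mul_one,
      add_zero, zero_add] at this
    exact mul_left_cancel₀ hr0.ne' this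
  have hs : Real.sin x.2 = Real.sin y.2 := by
    have := congrArg (fun v : E3 => (inner ℝ b v : ℝ)) h2
    simp only [inner_add_right, real_inner_smul_right, hbb, hba, hF.bp, mul_zero, mul_one,
      zero_add] at this
    exact mul_left_cancel₀ hr0.ne' this
  have h3 : x.2 = y.2 := by
    rw [← Complex.arg_cos_add_sin_mul_I hx.2, ← Complex.arg_cos_add_sin_mul_I hy.2]
    congr 1
    rw [← Complex.ofReal_cos, ← Complex.ofReal_cos, ← Complex.ofReal_sin, ← Complex.ofReal_sin,
      hc, hs]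
  exact Prod.ext h1 h3

/-- The exceptional set: points with `fq = 0`. -/
def filmE (w0 wt W : ℝ) (u : E3) : Set E4 :=
  (fun e : ℝ => e • e0 + fc w0 wt W e • emb u) '' {e | fq w0 wt W e = 0}

theorem finite_filmE (w0 wt W : ℝ) (u : E3) : (filmE w0 wt W u).Finite := by
  refine Set.Finite.image _ ?_
  have hA : (0 : ℝ) < 1 + (w0 / W) ^ 2 := by positivity
  set A := 1 + (w0 / W) ^ 2 with hA'
  set B := -2 * (wt / W) * (w0 / W) with hB'
  set C := (wt / W) ^ 2 - 1 with hC'
  have hq : ∀ e, fq w0 wt W e = -(A * (e * e) + B * e + C) := by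
    intro e; unfold fq fc; rw [hA', hB', hC']; ring
  by_cases hd : 0 ≤ discrim A B C
  · refine (Set.toFinite {(-B + Real.sqrt (discrim A B C)) / (2 * A),
      (-B - Real.sqrt (discrim A B C)) / (2 * A)}).subset ?_
    intro e he
    have he' : A * (e * e) + B * e + C = 0 := by
      have := hq e
      rw [show fq w0 wt W e = 0 from he] at this
      linarith
    have hs : discrim A B C = Real.sqrt (discrim A B C) * Real.sqrt (discrim A B C) :=
      (Real.mul_self_sqrt hd).symm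
    rcases (quadratic_eq_zero_iff hA.ne' hs e).1 he' with h | h
    · exact Or.inl h
    · exact Or.inr h
  · refine Set.Finite.subset Set.finite_empty ?_
    intro e he
    exfalso
    have he' : A * (e * e) + B * e + C = 0 := by
      have := hq e
      rw [show fq w0 wt W e = 0 from he] at this
      linarith
    have h := discrim_eq_sq_of_quadratic_eq_zero he'
    exact hd (h ▸ sq_nonneg _)

theorem mem_image_or {w0 wt W : ℝ} (hW : 0 < W) {a b u : E3}
    (hF : Frame a b u) {Y : E4} (hY : ‖Y‖ = 1)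
    (hY2 : w0 * Y 0 + inner ℝ (W • u) (vec Y) = wt) :
    (∃ x ∈ filmD w0 wt W, filmY w0 wt W a b u x = Y) ∨ Y ∈ filmE w0 wt W u := by
  have hu : (inner ℝ u (vec Y) : ℝ) = fc w0 wt W (Y 0) := by
    rw [real_inner_smul_left] at hY2
    unfold fc
    field_simp
    linarith
  set α : ℝ := inner ℝ a (vec Y) with hα
  set β : ℝ := inner ℝ b (vec Y) with hβ
  have hrep := frame_repr hF (vec Y)
  rw [← hα, ← hβ, hu] at hrep
  have hn : ‖vec Y‖ ^ 2 = α ^ 2 + β ^ 2 + fc w0 wt W (Y 0) ^ 2 := by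
    rw [← real_inner_self_eq_norm_sq, frame_inner hF, hu]; ring
  have hq : fq w0 wt W (Y 0) = α ^ 2 + β ^ 2 := by
    have h := norm_sq_vec Y
    rw [hY, hn] at h
    unfold fq
    linarith
  by_cases h0 : fq w0 wt W (Y 0) = 0
  · right
    refine ⟨Y 0, h0, ?_⟩
    have hα0 : α = 0 := by nlinarith [sq_nonneg α, sq_nonneg β]
    have hβ0 : β = 0 := by nlinarith [sq_nonneg α, sq_nonneg β]
    rw [hα0, hβ0] at hrep
    refine vec_ext (by simp) ?_
    rw [hrep]
    simp [vec_add, vec_smul]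
  · left
    have hpos : 0 < fq w0 wt W (Y 0) := by
      rcases lt_or_eq_of_le (show 0 ≤ fq w0 wt W (Y 0) by rw [hq]; positivity) with h | h
      · exact h
      · exact absurd h.symm h0
    set z : ℂ := ⟨α, β⟩ with hz
    have hzn : ‖z‖ = Real.sqrt (fq w0 wt W (Y 0)) := by
      rw [Complex.norm_def, Complex.normSq_mk, hq]; ring_nf
    have hz0 : z ≠ 0 := by
      intro h
      rw [h, norm_zero] at hzn
      exact (Real.sqrt_pos.mpr hpos).ne hzn
    refine ⟨(Y 0, Complex.arg z), ⟨hpos, Complex.neg_pi_lt_arg z, Complex.arg_le_pi z⟩, ?_⟩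
    refine vec_ext (filmY_zero _ _ _ _ _ _ _) ?_
    rw [vec_filmY, ← hzn]
    have hc : ‖z‖ * Real.cos (Complex.arg z) = α := by
      rw [Complex.norm_mul_cos_arg]
    have hs : ‖z‖ * Real.sin (Complex.arg z) = β := by
      rw [Complex.norm_mul_sin_arg]
    rw [smul_add, smul_smul, smul_smul, hc, hs]
    rw [hrep]
    abel

/-- Finite sets have two-dimensional Hausdorff measure zero. -/
theorem null_of_finite {E : Type*} [EMetricSpace E] [MeasurableSpace E] [BorelSpace E] {s : Set E}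
    (hs : s.Finite) : μH[2] s = 0 := by
  have := Measure.nullSingletonClass_hausdorff E (d := 2) (by norm_num)
  exact hs.measure_zero _

theorem filmE_null (w0 wt W : ℝ) (u : E3) : μH[2] (filmE w0 wt W u) = 0 :=
  null_of_finite (finite_filmE w0 wt W u)

/-! ### the domain is bounded -/

theorem filmD_subset (w0 wt W : ℝ) :
    filmD w0 wt W ⊆ Icc (-1) 1 ×ˢ Icc (-Real.pi) Real.pi := by
  intro x hx
  have h1 : 0 < fq w0 wt W x.1 := hx.1
  unfold fq at h1
  have h2 : x.1 ^ 2 < 1 := by nlinarith [sq_nonneg (fc w0 wt W x.1)]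
  have h3 := abs_lt_of_sq_lt_sq (a := x.1) (b := 1) (by simpa using h2) (by norm_num)
  rw [abs_lt] at h3
  exact ⟨⟨h3.1.le, h3.2.le⟩, ⟨hx.2.1.le, hx.2.2⟩⟩

theorem volume_filmD_lt (w0 wt W : ℝ) : volume (filmD w0 wt W) < ⊤ :=
  lt_of_le_of_lt (measure_mono (filmD_subset w0 wt W))
    (isCompact_Icc.prod isCompact_Icc).measure_lt_top

/-- The data of a film: `wv = W u` with a frame `a, b, u`. -/
theorem exists_film_frame {wv : E3} (hwv : wv ≠ 0) :
    ∃ a b u : E3, Frame a b u ∧ wv = ‖wv‖ • u := by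
  have hn : 0 < ‖wv‖ := norm_pos_iff.mpr hwv
  have hu : ‖(‖wv‖⁻¹ • wv)‖ = 1 := by
    rw [norm_smul, norm_inv, norm_norm, inv_mul_cancel₀ hn.ne']
  obtain ⟨a, b, h⟩ := exists_frame hu
  refine ⟨a, b, _, h, ?_⟩
  rw [smul_smul, mul_inv_cancel₀ hn.ne', one_smul]

theorem film_lt_top {w0 wt : ℝ} {wv : E3} (hw : w0 ^ 2 + ‖wv‖ ^ 2 - wt ^ 2 = 1) (hwv : wv ≠ 0)
    {S : Set E4} (hS1 : ∀ Y ∈ S, ‖Y‖ = 1)
    (hS2 : ∀ Y ∈ S, w0 * Y 0 + inner ℝ wv (vec Y) = wt) : μH[2] S < ⊤ := by
  obtain ⟨a, b, u, hF, hu⟩ := exists_film_frame hwv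
  set W := ‖wv‖ with hWd
  have hW : 0 < W := norm_pos_iff.mpr hwv
  have hsub : S ⊆ filmY w0 wt W a b u '' filmD w0 wt W ∪ filmE w0 wt W u := by
    intro Y hY
    rcases mem_image_or (w0 := w0) (wt := wt) hW hF (hS1 Y hY) (by rw [← hu]; exact hS2 Y hY)
      with h | h
    · obtain ⟨x, hx, hxY⟩ := h
      exact Or.inl ⟨x, hx, hxY⟩
    · exact Or.inr h
  refine lt_of_le_of_lt ((measure_mono hsub).trans (measure_union_le _ _)) ?_
  rw [filmE_null, add_zero]
  rw [area_formula (isOpen_filmU w0 wt W) (contDiffOn_filmY w0 wt W a b u)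
    (fun x hx => by rw [jac_filmY hW hw hF hx]; positivity) (measurableSet_filmD w0 wt W)
    (fun x hx => hx.1) (injOn_filmY hF)]
  rw [setLIntegral_congr_fun (g := fun _ => ENNReal.ofReal (cH * (1 / W)))
    (measurableSet_filmD w0 wt W) (fun x hx => by
      simp only []
      rw [jac_filmY hW hw hF (show x ∈ filmU w0 wt W from hx.1)])]
  rw [setLIntegral_const]
  exact ENNReal.mul_lt_top ENNReal.ofReal_lt_top (volume_filmD_lt w0 wt W)

/-- The part of the domain over `S`. -/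
def filmS (w0 wt W : ℝ) (a b u : E3) (S : Set E4) : Set (ℝ × ℝ) :=
  filmD w0 wt W ∩ filmY w0 wt W a b u ⁻¹' S

theorem measurableSet_filmS (w0 wt W : ℝ) (a b u : E3) {S : Set E4} (hS : MeasurableSet S) :
    MeasurableSet (filmS w0 wt W a b u S) :=
  (measurableSet_filmD w0 wt W).inter ((continuous_filmY w0 wt W a b u).measurable hS)

/-- The film is the image of the domain and a finite set. -/
theorem film_eq_union {w0 wt W : ℝ} (hW : 0 < W) {a b u : E3} (hF : Frame a b u) {S : Set E4}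
    (hS1 : ∀ Y ∈ S, ‖Y‖ = 1) (hS2 : ∀ Y ∈ S, w0 * Y 0 + inner ℝ (W • u) (vec Y) = wt) :
    S = filmY w0 wt W a b u '' filmS w0 wt W a b u S ∪ (S ∩ filmE w0 wt W u) := by
  ext Y
  constructor
  · intro hY
    rcases mem_image_or (w0 := w0) (wt := wt) hW hF (hS1 Y hY) (hS2 Y hY) with h | h
    · obtain ⟨x, hx, hxY⟩ := h
      exact Or.inl ⟨x, ⟨hx, by rw [mem_preimage, hxY]; exact hY⟩, hxY⟩
    · exact Or.inr ⟨hY, h⟩
  · rintro (⟨x, hx, rfl⟩ | h)
    · exact hx.2
    · exact h.1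

/-- **Integration over a film.** -/
theorem film_integral {w0 wt W : ℝ} (hW : 0 < W) (hw : w0 ^ 2 + W ^ 2 - wt ^ 2 = 1) {a b u : E3}
    (hF : Frame a b u) {S : Set E4} (hS : MeasurableSet S)
    (hS1 : ∀ Y ∈ S, ‖Y‖ = 1) (hS2 : ∀ Y ∈ S, w0 * Y 0 + inner ℝ (W • u) (vec Y) = wt)
    (h : E4 → ℝ) :
    ∫ Y in S, h Y ∂μH[2] = cH * ∫ x in filmS w0 wt W a b u S, 1 / W * h (filmY w0 wt W a b u x) := by
  have hS' := film_eq_union hW hF hS1 hS2
  have hae : S =ᵐ[μH[2]] filmY w0 wt W a b u '' filmS w0 wt W a b u S := by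
    conv_lhs => rw [hS']
    refine union_ae_eq_left_of_ae_eq_empty ?_
    rw [ae_eq_empty]
    exact measure_mono_null inter_subset_right (filmE_null w0 wt W u)
  rw [setIntegral_congr_set hae]
  rw [area_integral (isOpen_filmU w0 wt W) (contDiffOn_filmY w0 wt W a b u)
    (fun x hx => by rw [jac_filmY hW hw hF hx]; positivity) (measurableSet_filmS w0 wt W a b u hS)
    (fun x hx => hx.1.1) ((injOn_filmY hF).mono inter_subset_left)]
  congr 1
  refine setIntegral_congr_fun (measurableSet_filmS w0 wt W a b u hS) fun x hx => ?_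
  rw [jac_filmY hW hw hF (show x ∈ filmU w0 wt W from hx.1.1)]

end Kusner.P
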