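import Pool.Agent.helper75.Kus3.Film

/-!
# F7b, first part: stereographic projection is conformal
-/

open Set Metric MeasureTheory
open scoped ContDiff Topology

namespace Kusner.P

/-- The space part as a continuous linear map. -/
noncomputable def vecL : E4 →L[ℝ] E3 :=
  LinearMap.toContinuousLinearMap
    { toFun := vec, map_add' := vec_add, map_smul' := vec_smul }

@[simp] theorem vecL_apply (Y : E4) : vecL Y = vec Y := rfl

/-- The component along the pole. -/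
noncomputable def poleL (p : E3) : E4 →L[ℝ] ℝ := (innerSL ℝ p).comp vecL

@[simp] theorem poleL_apply (p : E3) (Y : E4) : poleL p Y = inner ℝ p (vec Y) := rfl

/-- The coordinates orthogonal to the pole. -/
noncomputable def perpL (a b : E3) : E4 →L[ℝ] E3 :=
  LinearMap.toContinuousLinearMap
    { toFun := fun Y => !₂[inner ℝ a (vec Y), inner ℝ b (vec Y), Y 0]
      map_add' := by
        intro Y Z
        ext i; fin_cases i <;> simp [vec_add, inner_add_right]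
      map_smul' := by
        intro c Y
        ext i; fin_cases i <;> simp [vec_smul, real_inner_smul_right] }

theorem perpL_apply (a b : E3) (Y : E4) :
    perpL a b Y = !₂[inner ℝ a (vec Y), inner ℝ b (vec Y), Y 0] := rfl

theorem perpL_two (a b : E3) (Y : E4) : perpL a b Y 2 = Y 0 := by
  rw [perpL_apply]; rfl

theorem inner_perp {a b p : E3} (h : Frame a b p) (V V' : E4) :
    (inner ℝ (perpL a b V) (perpL a b V') : ℝ) =
      inner ℝ V V' - inner ℝ p (vec V) * inner ℝ p (vec V') := by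
  rw [inner_vec V V', frame_inner h (vec V) (vec V'), perpL_apply, perpL_apply]
  simp only [PiLp.inner_apply, Fin.sum_univ_three]
  simp
  ring

theorem st_eq (a b p : E3) (Y : E4) :
    st a b p Y = (1 / (1 - poleL p Y)) • perpL a b Y := rfl

/-- The derivative of the stereographic projection. -/
noncomputable def dst (a b p : E3) (Y : E4) : E4 →L[ℝ] E3 :=
  (1 / (1 - poleL p Y)) • perpL a b +
    ((1 / (1 - poleL p Y) ^ 2) • poleL p).smulRight (perpL a b Y)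

theorem hasFDerivAt_st {a b p : E3} {Y : E4} (hY : inner ℝ p (vec Y) ≠ (1 : ℝ)) :
    HasFDerivAt (st a b p) (dst a b p Y) Y := by
  have h0 : 1 - poleL p Y ≠ 0 := by
    rw [poleL_apply]; exact sub_ne_zero.mpr (Ne.symm hY)
  have h1 : HasFDerivAt (fun Z : E4 => 1 - poleL p Z) (-(poleL p)) Y :=
    (poleL p).hasFDerivAt.const_sub 1
  have h2 : HasFDerivAt (fun Z : E4 => 1 / (1 - poleL p Z))
      ((1 / (1 - poleL p Y) ^ 2) • poleL p) Y := by
    have h3 := (hasDerivAt_inv h0).comp_hasFDerivAt Y h1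
    have h4 : (-((1 - poleL p Y) ^ 2)⁻¹) • (-(poleL p)) = (1 / (1 - poleL p Y) ^ 2) • poleL p := by
      rw [smul_neg, neg_smul, neg_neg, one_div]
    rw [h4] at h3
    refine h3.congr_of_eventuallyEq (Filter.Eventually.of_forall fun Z => ?_)
    simp [Function.comp]
  have h5 := h2.smul (perpL a b).hasFDerivAt
  exact h5

theorem contDiffOn_st (a b p : E3) :
    ContDiffOn ℝ 1 (st a b p) {Y : E4 | inner ℝ p (vec Y) ≠ (1 : ℝ)} := by
  have h1 : ContDiff ℝ 1 (fun Z : E4 => 1 - poleL p Z) :=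
    contDiff_const.sub (poleL p).contDiff
  have h2 : ContDiffOn ℝ 1 (fun Z : E4 => 1 / (1 - poleL p Z))
      {Y : E4 | inner ℝ p (vec Y) ≠ (1 : ℝ)} :=
    contDiffOn_const.div h1.contDiffOn fun Y hY => by
      rw [poleL_apply]; exact sub_ne_zero.mpr (Ne.symm hY)
  exact h2.smul (perpL a b).contDiff.contDiffOn

/-- **Conformality.** -/
theorem inner_dst {a b p : E3} (h : Frame a b p) {Y V V' : E4} (hY : ‖Y‖ = 1)
    (hp : inner ℝ p (vec Y) ≠ (1 : ℝ)) (hV : inner ℝ Y V = (0 : ℝ))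
    (hV' : inner ℝ Y V' = (0 : ℝ)) :
    (inner ℝ (dst a b p Y V) (dst a b p Y V') : ℝ) =
      inner ℝ V V' / (1 - inner ℝ p (vec Y)) ^ 2 := by
  have h0 : (1 : ℝ) - inner ℝ p (vec Y) ≠ 0 := sub_ne_zero.mpr (Ne.symm hp)
  have hYY : (inner ℝ Y Y : ℝ) = 1 := by rw [real_inner_self_eq_norm_sq, hY]; norm_num
  have hV'' : (inner ℝ V Y : ℝ) = 0 := by rw [real_inner_comm]; exact hV
  simp only [dst, add_apply, smul_apply,
    ContinuousLinearMap.smulRight_apply, poleL_apply, inner_add_left, inner_add_right,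
    real_inner_smul_left, real_inner_smul_right, inner_perp h, hYY, hV', hV'', smul_eq_mul]
  set q : ℝ := inner ℝ p (vec Y)
  field_simp
  ring

theorem jac_dst {a b p : E3} (h : Frame a b p) {Y V V' : E4} (hY : ‖Y‖ = 1)
    (hp : inner ℝ p (vec Y) ≠ (1 : ℝ)) (hV : inner ℝ Y V = (0 : ℝ))
    (hV' : inner ℝ Y V' = (0 : ℝ)) :
    jac (dst a b p Y V) (dst a b p Y V') = jac V V' / (1 - inner ℝ p (vec Y)) ^ 2 := by
  have h0 : (1 : ℝ) - inner ℝ p (vec Y) ≠ 0 := sub_ne_zero.mpr (Ne.symm hp)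
  unfold jac
  rw [← real_inner_self_eq_norm_sq, ← real_inner_self_eq_norm_sq, inner_dst h hY hp hV hV,
    inner_dst h hY hp hV' hV', inner_dst h hY hp hV hV', real_inner_self_eq_norm_sq,
    real_inner_self_eq_norm_sq]
  set o := (1 : ℝ) - inner ℝ p (vec Y)
  have h1 : ‖V‖ ^ 2 / o ^ 2 * (‖V'‖ ^ 2 / o ^ 2) - (inner ℝ V V' / o ^ 2) ^ 2 =
      (‖V‖ ^ 2 * ‖V'‖ ^ 2 - inner ℝ V V' ^ 2) / (o ^ 2) ^ 2 := by
    field_simp
  rw [h1, Real.sqrt_div', Real.sqrt_sq]
  · positivity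
  · positivity

/-- Stereographic projection is injective. -/
theorem injOn_st {a b p : E3} (h : Frame a b p) :
    InjOn (st a b p) {Y : E4 | ‖Y‖ = 1 ∧ inner ℝ p (vec Y) ≠ (1 : ℝ)} := by
  rintro Y ⟨hY, hpY⟩ Z ⟨hZ, hpZ⟩ hYZ
  have hY0 : (1 : ℝ) - inner ℝ p (vec Y) ≠ 0 := sub_ne_zero.mpr (Ne.symm hpY)
  have hZ0 : (1 : ℝ) - inner ℝ p (vec Z) ≠ 0 := sub_ne_zero.mpr (Ne.symm hpZ)
  have hn : ∀ X : E4, ‖X‖ = 1 → (1 : ℝ) - inner ℝ p (vec X) ≠ 0 →
      1 + ‖st a b p X‖ ^ 2 = 2 / (1 - inner ℝ p (vec X)) := by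
    intro X hX hX0
    have hXX : (inner ℝ X X : ℝ) = 1 := by rw [real_inner_self_eq_norm_sq, hX]; norm_num
    rw [st_eq, ← real_inner_self_eq_norm_sq, real_inner_smul_left, real_inner_smul_right,
      inner_perp h, hXX, poleL_apply]
    field_simp
    ring
  have h1 : (2 : ℝ) / (1 - inner ℝ p (vec Y)) = 2 / (1 - inner ℝ p (vec Z)) := by
    rw [← hn Y hY hY0, ← hn Z hZ hZ0, hYZ]
  have h2 : (inner ℝ p (vec Y) : ℝ) = inner ℝ p (vec Z) := by
    rw [div_eq_div_iff hY0 hZ0] at h1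
    linarith
  have h3 : perpL a b Y = perpL a b Z := by
    have h4 : (1 / (1 - poleL p Y)) • perpL a b Y = (1 / (1 - poleL p Z)) • perpL a b Z := hYZ
    rw [poleL_apply, poleL_apply, ← h2] at h4
    exact smul_right_injective E3 (one_div_ne_zero hY0) h4
  have e0 : Y 0 = Z 0 := by rw [← perpL_two a b Y, ← perpL_two a b Z, h3]
  have e1 : (inner ℝ a (vec Y) : ℝ) = inner ℝ a (vec Z) := by
    have := congrArg (fun v : E3 => v 0) h3
    simpa [perpL_apply] using this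
  have e2 : (inner ℝ b (vec Y) : ℝ) = inner ℝ b (vec Z) := by
    have := congrArg (fun v : E3 => v 1) h3
    simpa [perpL_apply] using this
  refine vec_ext e0 ?_
  rw [frame_repr h (vec Y), frame_repr h (vec Z), e1, e2, h2]

/-! ### the coordinates of the image -/

theorem norm_st {a b p : E3} (h : Frame a b p) {Y : E4} (hY : ‖Y‖ = 1)
    (hp : inner ℝ p (vec Y) ≠ (1 : ℝ)) :
    1 + ‖st a b p Y‖ ^ 2 = 2 / (1 - inner ℝ p (vec Y)) := by
  have h0 : (1 : ℝ) - inner ℝ p (vec Y) ≠ 0 := sub_ne_zero.mpr (Ne.symm hp)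
  have hXX : (inner ℝ Y Y : ℝ) = 1 := by rw [real_inner_self_eq_norm_sq, hY]; norm_num
  rw [st_eq, ← real_inner_self_eq_norm_sq, real_inner_smul_left, real_inner_smul_right,
    inner_perp h, hXX, poleL_apply]
  field_simp
  ring

theorem om_st {a b p : E3} (h : Frame a b p) {Y : E4} (hY : ‖Y‖ = 1)
    (hp : inner ℝ p (vec Y) ≠ (1 : ℝ)) : om (st a b p Y) = 1 - inner ℝ p (vec Y) := by
  have h0 : (1 : ℝ) - inner ℝ p (vec Y) ≠ 0 := sub_ne_zero.mpr (Ne.symm hp)
  unfold om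
  rw [norm_st h hY hp]
  field_simp

theorem et_st {a b p : E3} (h : Frame a b p) {Y : E4} (hY : ‖Y‖ = 1)
    (hp : inner ℝ p (vec Y) ≠ (1 : ℝ)) : et (st a b p Y) = Y 0 := by
  have h0 : (1 : ℝ) - inner ℝ p (vec Y) ≠ 0 := sub_ne_zero.mpr (Ne.symm hp)
  unfold et
  rw [om_st h hY hp, st_eq]
  simp only [PiLp.smul_apply, perpL_two, smul_eq_mul, poleL_apply]
  field_simp

/-! ### the normal vector -/

/-- The normal vector of the film in the three-sphere. -/
noncomputable def nrm (w0 wt : ℝ) (wv : E3) (Y : E4) : E4 :=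
  (w0 - wt * Y 0) • e0 + emb (nvec wv wt Y)

theorem nrm_zero (w0 wt : ℝ) (wv : E3) (Y : E4) : nrm w0 wt wv Y 0 = w0 - wt * Y 0 := by
  simp [nrm]

theorem vec_nrm (w0 wt : ℝ) (wv : E3) (Y : E4) : vec (nrm w0 wt wv Y) = nvec wv wt Y := by
  simp [nrm, vec_add, vec_smul]

theorem inner_nrm (w0 wt : ℝ) (wv : E3) (Y V : E4) :
    (inner ℝ (nrm w0 wt wv Y) V : ℝ) =
      w0 * V 0 + inner ℝ wv (vec V) - wt * inner ℝ Y V := by
  rw [inner_vec, nrm_zero, vec_nrm, nvec, inner_sub_left, real_inner_smul_left, inner_vec Y V]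
  ring

theorem inner_nrm_self {w0 wt : ℝ} {wv : E3} (hw : w0 ^ 2 + ‖wv‖ ^ 2 - wt ^ 2 = 1) {Y : E4}
    (hY : ‖Y‖ = 1) (hY2 : w0 * Y 0 + inner ℝ wv (vec Y) = wt) :
    (inner ℝ (nrm w0 wt wv Y) (nrm w0 wt wv Y) : ℝ) = 1 := by
  have hYY : (inner ℝ Y Y : ℝ) = 1 := by rw [real_inner_self_eq_norm_sq, hY]; norm_num
  rw [inner_nrm, real_inner_comm (nrm w0 wt wv Y) Y, inner_nrm, nrm_zero, vec_nrm, nvec,
    inner_sub_right,
    real_inner_smul_right, real_inner_self_eq_norm_sq, hYY]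
  linear_combination hw - (2 * wt) * hY2

/-- The unit normal of the image of the film. -/
noncomputable def nst (a b p : E3) (w0 wt : ℝ) (wv : E3) (Y : E4) : E3 :=
  (1 - inner ℝ p (vec Y)) • dst a b p Y (nrm w0 wt wv Y)

theorem nst_eq {a b p : E3} {w0 wt : ℝ} {wv : E3} {Y : E4} (hp : inner ℝ p (vec Y) ≠ (1 : ℝ)) :
    nst a b p w0 wt wv Y = perpL a b (nrm w0 wt wv Y) +
      (inner ℝ p (nvec wv wt Y) : ℝ) • st a b p Y := by
  have h0 : (1 : ℝ) - inner ℝ p (vec Y) ≠ 0 := sub_ne_zero.mpr (Ne.symm hp)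
  simp only [nst, dst, add_apply, smul_apply,
    ContinuousLinearMap.smulRight_apply, poleL_apply, vec_nrm, st_eq, smul_add, smul_smul,
    smul_eq_mul]
  congr 1
  · rw [mul_one_div_cancel h0, one_smul]
  · congr 1
    field_simp

theorem nst_two {a b p : E3} {w0 wt : ℝ} {wv : E3} {Y : E4} (hp : inner ℝ p (vec Y) ≠ (1 : ℝ)) :
    nst a b p w0 wt wv Y 2 = w0 - wt * Y 0 +
      inner ℝ p (nvec wv wt Y) * (Y 0 / (1 - inner ℝ p (vec Y))) := by
  rw [nst_eq hp, st_eq]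
  simp only [PiLp.add_apply, PiLp.smul_apply, perpL_two, nrm_zero, smul_eq_mul, poleL_apply]
  ring

theorem inner_st_nst {a b p : E3} (h : Frame a b p) {w0 wt : ℝ} {wv : E3} {Y : E4}
    (hY : ‖Y‖ = 1) (hY2 : w0 * Y 0 + inner ℝ wv (vec Y) = wt)
    (hp : inner ℝ p (vec Y) ≠ (1 : ℝ)) :
    (inner ℝ (st a b p Y) (nst a b p w0 wt wv Y) : ℝ) =
      inner ℝ p (nvec wv wt Y) / (1 - inner ℝ p (vec Y)) := by
  have h0 : (1 : ℝ) - inner ℝ p (vec Y) ≠ 0 := sub_ne_zero.mpr (Ne.symm hp)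
  have hYY : (inner ℝ Y Y : ℝ) = 1 := by rw [real_inner_self_eq_norm_sq, hY]; norm_num
  have hYN : (inner ℝ Y (nrm w0 wt wv Y) : ℝ) = 0 := by
    rw [real_inner_comm, inner_nrm, hYY]; linarith
  rw [nst_eq hp, st_eq]
  simp only [inner_add_right, real_inner_smul_left, real_inner_smul_right, inner_perp h, hYY, hYN,
    vec_nrm, poleL_apply]
  set v : ℝ := inner ℝ p (nvec wv wt Y)
  set q : ℝ := inner ℝ p (vec Y)
  field_simp
  ring

end Kusner.P
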